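import Pool.Agent.Helper31.LQ.Goals

/-!
# Packet LQ-LMUL

The linear map `Y ↦ (l ↦ g *ᵥ Y l)` scales the volume by `|det g| ^ n`.
-/

open MeasureTheory Set
open scoped ENNReal Matrix

noncomputable section

namespace Pool.Agent.Helper95.LQ

/-- `Y ↦ (l ↦ g *ᵥ Y l)` as a linear map. -/
def rowMap (n d : ℕ) (g : Matrix (Fin d) (Fin d) ℝ) :
    (Fin n → Fin d → ℝ) →ₗ[ℝ] (Fin n → Fin d → ℝ) :=
  LinearMap.pi fun l => (Matrix.toLin' g).comp (LinearMap.proj l)

lemma rowMap_apply (n d : ℕ) (g : Matrix (Fin d) (Fin d) ℝ) (Y : Fin n → Fin d → ℝ) :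
    rowMap n d g Y = fun l => g *ᵥ Y l := by
  funext l
  simp [rowMap, Matrix.toLin'_apply]

lemma det_rowMap (n d : ℕ) (g : Matrix (Fin d) (Fin d) ℝ) :
    LinearMap.det (rowMap n d g) = g.det ^ n := by
  unfold rowMap
  rw [LinearMap.det_pi]
  simp

theorem gLMUL : Pool.Agent.Helper31.LQ.LMUL := by
  intro n d g hg h
  have hdet : LinearMap.det (rowMap n d g) ≠ 0 := by
    rw [det_rowMap]; exact pow_ne_zero _ hg
  let e : (Fin n → Fin d → ℝ) ≃ₗ[ℝ] (Fin n → Fin d → ℝ) :=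
    LinearMap.equivOfDetNeZero (rowMap n d g) hdet
  let ec : (Fin n → Fin d → ℝ) ≃L[ℝ] (Fin n → Fin d → ℝ) := e.toContinuousLinearEquiv
  let em : (Fin n → Fin d → ℝ) ≃ᵐ (Fin n → Fin d → ℝ) := ec.toHomeomorph.toMeasurableEquiv
  have hem : ∀ Y, em Y = fun l => g *ᵥ Y l := by
    intro Y
    rw [← rowMap_apply]
    rfl
  have hmap : Measure.map em (volume : Measure (Fin n → Fin d → ℝ)) =
      ENNReal.ofReal (|(g.det ^ n)⁻¹|) • volume := by
    have := Measure.map_linearMap_addHaar_eq_smul_addHaar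
      (volume : Measure (Fin n → Fin d → ℝ)) hdet
    rw [det_rowMap] at this
    rw [← this]
    rfl
  have h1 : (∫⁻ Y : Fin n → Fin d → ℝ, h fun l => g *ᵥ Y l) =
      ENNReal.ofReal (|(g.det ^ n)⁻¹|) * ∫⁻ Y, h Y := by
    have := lintegral_map_equiv h em (μ := (volume : Measure (Fin n → Fin d → ℝ)))
    rw [hmap, lintegral_smul_measure] at this
    simp only [hem] at this
    rw [← this]
    rfl
  rw [h1, mul_right_comm, ← ENNReal.ofReal_mul (abs_nonneg _), ← abs_pow, ← abs_mul,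
    inv_mul_cancel₀ (pow_ne_zero _ hg)]
  simp

end Pool.Agent.Helper95.LQ
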